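import Pool.Agent.helper57.DH.SpecL

/-!
# Project d2: (MP_5823cb_al): module LLO (localisation)
-/

set_option autoImplicit false

open Filter Topology MeasureTheory
open scoped commutatorElement

namespace Pool.Agent.helper90.DH

open Pool.Agent.helper64.D2

theorem LLO_mem_cell (s : ℕ) (k : ℤ) (x : ℝ) : x ∈ cell s k ↔ ci s x = k := by
  have h2 : (0 : ℝ) < 2 ^ s := by positivity
  unfold cell ci
  rw [Set.mem_Ico, Int.floor_eq_iff, div_le_iff₀ h2, lt_div_iff₀ h2, mul_comm x]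

theorem LLO_ci_le (p s : ℕ) (hps : p ≤ s) (x z : ℝ) (h : ci s x = ci s z) : ci p x ≤ ci p z := by
  obtain ⟨d, rfl⟩ := Nat.exists_eq_add_of_le hps
  unfold ci at h ⊢
  rw [Int.le_floor]
  have h1 : ((⌊(2 : ℝ) ^ p * x⌋ : ℤ) : ℝ) ≤ 2 ^ p * x := Int.floor_le _
  have hd : (0 : ℝ) < 2 ^ d := by positivity
  have h3 : (((⌊(2 : ℝ) ^ p * x⌋ * 2 ^ d : ℤ)) : ℝ) ≤ (2 : ℝ) ^ (p + d) * x := by
    push_cast
    calc ((⌊(2 : ℝ) ^ p * x⌋ : ℤ) : ℝ) * 2 ^ d ≤ (2 ^ p * x) * 2 ^ d := mul_le_mul_of_nonneg_right h1 hd.le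
      _ = (2 : ℝ) ^ (p + d) * x := by rw [pow_add]; ring
  have h4 : ⌊(2 : ℝ) ^ p * x⌋ * 2 ^ d ≤ ⌊(2 : ℝ) ^ (p + d) * x⌋ := Int.le_floor.2 h3
  rw [h] at h4
  have h5 : (((⌊(2 : ℝ) ^ p * x⌋ * 2 ^ d : ℤ)) : ℝ) ≤ (2 : ℝ) ^ (p + d) * z := Int.le_floor.1 h4
  push_cast at h5
  have h6 : ((⌊(2 : ℝ) ^ p * x⌋ : ℤ) : ℝ) * 2 ^ d ≤ (2 ^ p * z) * 2 ^ d := by
    calc ((⌊(2 : ℝ) ^ p * x⌋ : ℤ) : ℝ) * 2 ^ d ≤ (2 : ℝ) ^ (p + d) * z := h5
      _ = (2 ^ p * z) * 2 ^ d := by rw [pow_add]; ring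
  exact le_of_mul_le_mul_right h6 hd

theorem LLO_ci_eq (p s : ℕ) (hps : p ≤ s) (x z : ℝ) (h : ci s x = ci s z) : ci p x = ci p z :=
  le_antisymm (LLO_ci_le p s hps x z h) (LLO_ci_le p s hps z x h.symm)

theorem LLO_Mop (q : ℕ) (c : ℕ → DD) (f g : ℝ → ℝ) (x : ℝ) (h : ∀ i < q, f (ev (c i) x) = g (ev (c i) x)) :
    Mop q c f x = Mop q c g x := by
  unfold Mop
  rw [Finset.sum_congr rfl (fun i hi => h i (Finset.mem_range.1 hi))]

/-- The restriction of `y` to the three cells. -/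
noncomputable def LLO_res (p : ℕ) (κ : ℤ) (y : ℝ → ℝ) (x : ℝ) : ℝ := if κ - 1 ≤ ci p x ∧ ci p x ≤ κ + 1 then y x else 0

theorem LLO_nsq (p : ℕ) (κ : ℤ) (y : ℝ → ℝ) (hy : ∀ x, |y x| ≤ 2) : nsq (LLO_res p κ y) ≤ 12 / 2 ^ p := by
  have h2 : (0 : ℝ) < 2 ^ p := by positivity
  set I : Set ℝ := Set.Icc (((κ : ℝ) - 1) / 2 ^ p) (((κ : ℝ) + 2) / 2 ^ p) with hI
  have hint : Integrable (I.indicator (fun _ => (4 : ℝ))) := by
    rw [integrable_indicator_iff measurableSet_Icc]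
    exact integrableOn_const (by rw [Real.volume_Icc]; exact ENNReal.ofReal_ne_top)
  have hle : ∀ x, LLO_res p κ y x ^ 2 ≤ I.indicator (fun _ => (4 : ℝ)) x := by
    intro x
    unfold LLO_res
    split_ifs with h
    · have hx : x ∈ I := by
        rw [hI, Set.mem_Icc, div_le_iff₀ h2, le_div_iff₀ h2]
        have e1 : ((ci p x : ℤ) : ℝ) ≤ 2 ^ p * x := Int.floor_le _
        have e2 : 2 ^ p * x < ((ci p x : ℤ) : ℝ) + 1 := Int.lt_floor_add_one _
        have e3 : ((κ : ℝ) - 1) ≤ ((ci p x : ℤ) : ℝ) := by exact_mod_cast h.1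
        have e4 : ((ci p x : ℤ) : ℝ) ≤ (κ : ℝ) + 1 := by exact_mod_cast h.2
        constructor <;> linarith [mul_comm x ((2 : ℝ) ^ p)]
      rw [Set.indicator_of_mem hx]
      have := hy x
      rw [← sq_abs]
      nlinarith [abs_nonneg (y x)]
    · rw [zero_pow two_ne_zero]
      exact Set.indicator_nonneg (fun _ _ => by norm_num) x
  have h3 : nsq (LLO_res p κ y) ≤ ∫ x, I.indicator (fun _ => (4 : ℝ)) x := by
    unfold nsq
    exact integral_mono_of_nonneg (Filter.Eventually.of_forall (fun x => sq_nonneg _)) hint (Filter.Eventually.of_forall hle)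
  refine h3.trans (le_of_eq ?_)
  rw [integral_indicator measurableSet_Icc, setIntegral_const, smul_eq_mul, Measure.real, Real.volume_Icc,
    ENNReal.toReal_ofReal]
  · field_simp
    ring
  · rw [← sub_div]
    apply div_nonneg _ h2.le
    linarith

theorem LLO (hLEA : LEA_stmt) : LLO_stmt := by
  intro q s0 w0 N c y κ h10 hs0 hw0 hN hNI hPA hsup hb
  obtain ⟨p, hp⟩ : ∃ p : ℕ, s0 = p + w0 + 4 := ⟨s0 - w0 - 4, by omega⟩
  have hp' : s0 - w0 - 4 = p := by omega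
  have hps : p ≤ s0 := by omega
  have h2 : (0 : ℝ) < 2 ^ p := by positivity
  have hw2 : (0 : ℝ) < 2 ^ w0 := by positivity
  have hpow : (2 : ℝ) ^ s0 = 2 ^ p * 2 ^ w0 * 16 := by
    rw [hp, pow_add, pow_add]
    norm_num
  rw [hp']
  have hrat : ∀ a : ℝ, a * 2 ^ w0 / 2 ^ s0 = a / 16 / 2 ^ p := by
    intro a
    rw [hpow]
    field_simp
  refine ⟨LLO_res p κ y, ?_, ?_, ?_, ?_, ?_⟩
  · intro k
    obtain ⟨a, b, hab⟩ := hPA k
    by_cases hk : ∃ x0 ∈ cell N k, κ - 1 ≤ ci p x0 ∧ ci p x0 ≤ κ + 1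
    · obtain ⟨x0, hx0, hx1⟩ := hk
      refine ⟨a, b, fun x hx => ?_⟩
      have e : ci p x = ci p x0 := LLO_ci_eq p N (hps.trans hN) x x0
        (((LLO_mem_cell N k x).1 hx).trans ((LLO_mem_cell N k x0).1 hx0).symm)
      unfold LLO_res
      rw [e, if_pos hx1]
      exact hab x hx
    · refine ⟨0, 0, fun x hx => ?_⟩
      unfold LLO_res
      rw [if_neg (fun h => hk ⟨x, hx, h⟩)]
      ring
  · intro x hx
    unfold LLO_res
    split_ifs
    · exact hsup x hx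
    · rfl
  · intro x
    unfold LLO_res
    split_ifs
    · exact hb x
    · rw [abs_zero]; norm_num
  · refine (LLO_nsq p κ y hb).trans (le_of_eq ?_)
    rw [hrat 192]
    norm_num
  · intro x x0 hx0 hxx s S1 th hs
    rw [hrat 2] at hxx
    have hin : ∀ i < q, κ - 1 ≤ ci p (ev (c i) x) ∧ ci p (ev (c i) x) ≤ κ + 1 := by
      intro i hi
      have h1 := (hNI i hi).2 x
      have h8 : (2 : ℝ) ^ (w0 + 3) / 2 ^ s0 = 8 / 16 / 2 ^ p := by
        rw [← hrat 8, pow_add]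
        ring
      rw [h8] at h1
      unfold cell at hx0
      rw [Set.mem_Ico, div_le_iff₀ h2, lt_div_iff₀ h2] at hx0
      have h3 : |ev (c i) x - x| * 2 ^ p ≤ 1 / 2 := by
        calc |ev (c i) x - x| * 2 ^ p ≤ (8 / 16 / 2 ^ p) * 2 ^ p := mul_le_mul_of_nonneg_right h1 h2.le
          _ = 1 / 2 := by field_simp; norm_num
      have h4 : |x - x0| * 2 ^ p ≤ 1 / 8 := by
        calc |x - x0| * 2 ^ p ≤ (2 / 16 / 2 ^ p) * 2 ^ p := mul_le_mul_of_nonneg_right hxx h2.le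
          _ = 1 / 8 := by field_simp; norm_num
      have h5 : |2 ^ p * ev (c i) x - 2 ^ p * x0| ≤ 5 / 8 := by
        have e1 : 2 ^ p * ev (c i) x - 2 ^ p * x0 = (ev (c i) x - x) * 2 ^ p + (x - x0) * 2 ^ p := by ring
        rw [e1]
        refine (abs_add_le _ _).trans ?_
        rw [abs_mul, abs_mul, abs_of_pos h2]
        linarith
      have h6 := abs_le.1 h5
      constructor
      · unfold ci
        rw [Int.le_floor]
        push_cast
        linarith [h6.1, hx0.1, mul_comm x0 ((2 : ℝ) ^ p)]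
      · have h7 : ci p (ev (c i) x) < κ + 2 := by
          unfold ci
          rw [Int.floor_lt]
          push_cast
          linarith [h6.2, hx0.2, mul_comm x0 ((2 : ℝ) ^ p)]
        omega
    have hE : ∀ r : ℕ, s0 ≤ r → ∀ i < q, Es r y (ev (c i) x) = Es r (LLO_res p κ y) (ev (c i) x) := by
      intro r hr i hi
      apply hLEA.2.2.2.2.2.2 r y (LLO_res p κ y) (ev (c i) x)
      intro t ht
      have e : ci p t = ci p (ev (c i) x) := LLO_ci_eq p r (hps.trans hr) _ _ ((LLO_mem_cell r _ t).1 ht)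
      unfold LLO_res
      rw [e, if_pos (hin i hi)]
    have hM1 : ∀ r : ℕ, s0 ≤ r → Mop q c (fun z => Es r y z - Es s0 y z) x =
        Mop q c (fun z => Es r (LLO_res p κ y) z - Es s0 (LLO_res p κ y) z) x := by
      intro r hr
      apply LLO_Mop
      intro i hi
      show Es r y (ev (c i) x) - Es s0 y (ev (c i) x) = Es r (LLO_res p κ y) (ev (c i) x) - Es s0 (LLO_res p κ y) (ev (c i) x)
      rw [hE r hr i hi, hE s0 le_rfl i hi]
    have hM2 : Mop q c (fun z => fr s z * Ds s y z) x = Mop q c (fun z => fr s z * Ds s (LLO_res p κ y) z) x := by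
      apply LLO_Mop
      intro i hi
      show fr s (ev (c i) x) * Ds s y (ev (c i) x) = fr s (ev (c i) x) * Ds s (LLO_res p κ y) (ev (c i) x)
      unfold Ds
      rw [hE s hs i hi, hE (s + 1) (by omega) i hi]
    unfold BdS
    rw [Set.mem_ofPred_eq, Set.mem_ofPred_eq, hM1 s hs, hM1 (s + 1) (by omega), hM2]

end Pool.Agent.helper90.DH
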